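import Pool.Agent.VMX.StmtsF

/-!
# VMX squad (MP_e54c4c_gt), row POF: a strictly positive functional
-/

set_option autoImplicit false

open Matrix Filter Topology

namespace Pool.Agent.VMX.H6

open Pool.Agent.PFS Pool.Agent.PFJ Pool.Agent.NBT

theorem pof : PofStmt := by
  intro n C h
  classical
  have hconv : Convex ℝ (closure C) := h.convex.closure
  have hpt : ∀ x : V n, ∃ f : V n →ₗ[ℝ] ℝ, (∀ y ∈ closure C, 0 ≤ f y) ∧
      (x ∈ closure C → x ≠ 0 → 0 < f x) := by
    intro x
    by_cases hx : x ∈ closure C ∧ x ≠ 0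
    · obtain ⟨hx, hx0⟩ := hx
      have hnot : -x ∉ closure C := fun hneg => hx0 (h.salient x hx hneg)
      obtain ⟨f, u, hfx, hfb⟩ := geometric_hahn_banach_point_closed hconv isClosed_closure hnot
      have hu : u < 0 := by simpa using hfb 0 h.zero_cl
      refine ⟨(f : V n →ₗ[ℝ] ℝ), ?_, fun _ _ => ?_⟩
      · intro y hy
        by_contra hneg
        push Not at hneg
        have hneg' : f y < 0 := hneg
        have h1 := hfb ((u / f y) • y) (h.cl_smul hy (div_nonneg_of_nonpos hu.le hneg'.le))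
        rw [map_smul, smul_eq_mul, div_mul_cancel₀ _ hneg'.ne] at h1
        exact lt_irrefl _ h1
      · have h1 : f (-x) < 0 := hfx.trans hu
        rw [map_neg] at h1
        have h2 : 0 < f x := by linarith
        exact h2
    · refine ⟨0, fun y _ => by simp, fun h1 h2 => ?_⟩
      exact absurd ⟨h1, h2⟩ hx
  choose f hf1 hf2 using hpt
  let S : Set (V n) := {x | x ∈ closure C ∧ ‖x‖ = 1}
  have hScl : IsClosed S :=
    isClosed_closure.inter (isClosed_eq continuous_norm continuous_const)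
  have hSb : S ⊆ Metric.closedBall 0 1 := by
    rintro x ⟨_, hx⟩
    simp [hx]
  have hSc : IsCompact S := (isCompact_closedBall (0 : V n) 1).of_isClosed_subset hScl hSb
  obtain ⟨t, -, htc⟩ := hSc.elim_nhds_subcover (fun x => {y : V n | 0 < f x y}) (by
    rintro x ⟨hx, hx1⟩
    have hx0 : x ≠ 0 := by
      rintro rfl
      simp at hx1
    have hcont : Continuous (f x) := LinearMap.continuous_of_finiteDimensional _
    exact (isOpen_lt continuous_const hcont).mem_nhds (hf2 x hx hx0))
  refine ⟨∑ x ∈ t, f x, ?_⟩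
  intro y hy hy0
  have hyp : 0 < ‖y‖ := norm_pos_iff.mpr hy0
  have hmem : ‖y‖⁻¹ • y ∈ S := by
    refine ⟨h.cl_smul hy (inv_pos.mpr hyp).le, ?_⟩
    rw [norm_smul, norm_inv, norm_norm, inv_mul_cancel₀ hyp.ne']
  have h1 := htc hmem
  simp only [Set.mem_iUnion, Set.mem_setOf_eq] at h1
  obtain ⟨x, hxt, hx⟩ := h1
  rw [map_smul, smul_eq_mul] at hx
  have hx' : 0 < f x y := (mul_pos_iff_of_pos_left (inv_pos.mpr hyp)).mp hx
  rw [LinearMap.sum_apply]
  exact Finset.sum_pos' (fun z _ => hf1 z y hy) ⟨x, hxt, hx'⟩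

end Pool.Agent.VMX.H6
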