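import Pool.Agent.VMX.StmtsC
import Pool.Agent.Helper10_PFJ.FMX

/-!
# VMX squad (MP_e54c4c_gt), row TRC: the centraliser fixes the three rays
-/

set_option autoImplicit false

open Matrix Filter Topology

namespace Pool.Agent.VMX.H6

open Pool.Agent.PFS Pool.Agent.PFJ Pool.Agent.NBT

/-- an element commuting with `g` maps eigenvectors to eigenvectors -/
theorem eig_comm {n : ℕ} {g γ : GL (Fin n) ℝ} (hc : γ * g = g * γ) {s μ : ℝ} {u : V n}
    (hu : sA s g u = μ • u) : sA s g (act γ u) = μ • act γ u := by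
  rw [sA_apply, ← CC.act_mul, ← hc, CC.act_mul, ← CC.act_smul, ← sA_apply s g u, hu, CC.act_smul]

/-- the powers of a scaled element preserve an invariant subspace -/
theorem pow_mem {n : ℕ} {H : V n →ₗ[ℝ] V n} {B : Submodule ℝ (V n)} (hB : ∀ u ∈ B, H u ∈ B)
    {u : V n} (hu : u ∈ B) (m : ℕ) : (H ^ m) u ∈ B := by
  induction m with
  | zero => simpa using hu
  | succ m ih =>
    rw [pow_succ', Module.End.mul_apply]
    exact hB _ ih

theorem trc (atf : AtfStmt) : TrcStmt := by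
  intro n k C Γ h w hw g hg s la lc lb c b ψa ψc ψb hs hlb hbc hca hinv hA hCc hBb hcL hbL γ hγ hcomm
  have hP : PCone C := h.toCC.toPCone
  have HF := h.toCC.hul
  obtain ⟨hw0, hA2, -, -, hA5, -⟩ := atf n C hP ⊤ (sA s g) la (w 0) ψa hA
  obtain ⟨-, hC2, -, -, -, -⟩ := atf n C hP _ (sA s g) lc c ψc hCc
  obtain ⟨-, hB2, -, -, -, -⟩ := atf n C hP ⊤ (sA s⁻¹ g⁻¹) lb⁻¹ b ψb hBb
  have hcommi : γ * g⁻¹ = g⁻¹ * γ := by
    have h1 : g⁻¹ * (γ * g) * g⁻¹ = g⁻¹ * (g * γ) * g⁻¹ := by rw [hcomm]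
    have h2 : g⁻¹ * (γ * g) * g⁻¹ = g⁻¹ * γ := by group
    have h3 : g⁻¹ * (g * γ) * g⁻¹ = γ * g⁻¹ := by group
    rw [h2, h3] at h1
    exact h1.symm
  have hwcl : ∀ i, w i ∈ closure C := fun i => HF.lamCl _ (hw.2 i)
  refine ⟨⟨_, hA2 _ Submodule.mem_top (eig_comm hcomm hA.eig)⟩, ?_,
    ⟨_, hB2 _ Submodule.mem_top (eig_comm hcommi hBb.eig)⟩⟩
  -- the ray of `c`
  set B := BI C w {0}ᶜ with hBdef
  set f := fS w ({0}ᶜ : Finset (Fin (k + 1))) with hf
  have hfcl : f ∈ closure C := fS_cl hP hwcl _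
  obtain ⟨hfu, -, -, -, -⟩ := fcs n C hP f hfcl
  have hsum : f + w 0 = ∑ i, w i := by
    have h1 := fS_add_compl w ({0} : Finset (Fin (k + 1)))
    rw [fS_single] at h1
    rw [← h1, add_comm]
  have hsumC : ∑ i, w i ∈ C := by
    have h1 := hw.1.pos (fun _ => 1) (fun _ => one_pos)
    simpa using h1
  have hfC : f ∉ C := by
    have h1 := hw.1.bd (fun i => if i = 0 then 0 else 1)
      (fun i => by split_ifs <;> norm_num) ⟨0, by simp⟩
    have h2 : ∑ i, (if i = 0 then (0 : ℝ) else 1) • w i = f := by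
      rw [hf]
      unfold fS
      rw [← Finset.sum_subset (Finset.subset_univ ({0}ᶜ : Finset (Fin (k + 1))))]
      · refine Finset.sum_congr rfl fun i hi => ?_
        have hi0 : i ≠ 0 := by simpa using hi
        rw [if_neg hi0, one_smul]
      · intro i _ hi
        have hi0 : i = 0 := by simpa using hi
        rw [if_pos hi0, zero_smul]
    rwa [h2] at h1
  have hw0B : w 0 ∉ B := by
    intro hmem
    obtain ⟨M, hM, hM1⟩ := hfu.2.2 (w 0) hmem
    have h1 : (M + 1) • f - ∑ i, w i ∈ closure C := by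
      have h2 : (M + 1) • f - ∑ i, w i = M • f - w 0 := by
        rw [← hsum, add_smul, one_smul]; abel
      rw [h2]; exact hM1
    have h3 := hP.mem_of_le hsumC h1
    exact hfC ((hP.smul_iff (by linarith)).mp h3)
  have hBinv : ∀ u ∈ B, sA s g u ∈ B := by
    intro u hu
    rw [sA_apply]
    refine Submodule.smul_mem _ _ ?_
    rw [← hinv]
    exact mem_img.mpr ⟨u, hu, rfl⟩
  have hBcl : IsClosed (B : Set (V n)) := Submodule.closed_of_finiteDimensional B
  have hψj : ∀ j, j ≠ 0 → ψa (w j) = 0 := by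
    intro j hj
    have hjB : w j ∈ B := by
      have h1 : (1 : ℝ) • f - w j ∈ closure C := by
        have hj' : j ∈ ({0}ᶜ : Finset (Fin (k + 1))) := by simpa using hj
        have h2 : (1 : ℝ) • f - w j = ∑ i ∈ ({0}ᶜ : Finset (Fin (k + 1))).erase j, w i := by
          rw [one_smul, hf]
          unfold fS
          rw [← Finset.add_sum_erase _ _ hj']
          abel
        rw [h2]
        exact hP.cl_sum fun i _ => hwcl i
      refine fce hP hwcl (M := 1) h1 ?_
      rw [one_smul]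
      exact hP.cl_add hfcl (hwcl j)
    have hlim := hA.lim (w j) Submodule.mem_top
    have hmem : ψa (w j) • w 0 ∈ B :=
      hBcl.mem_of_tendsto hlim (Eventually.of_forall fun m =>
        Submodule.smul_mem _ _ (pow_mem hBinv hjB m))
    by_contra hne
    apply hw0B
    have h1 := Submodule.smul_mem B (ψa (w j))⁻¹ hmem
    rwa [smul_smul, inv_mul_cancel₀ hne, one_smul] at h1
  set y := act γ c with hy
  have hyL : y ∈ LamC C Γ := HF.lamAct c hcL γ hγ
  have hycl : y ∈ closure C := HF.lamCl _ hyL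
  have hyne : y ≠ 0 := HF.lamNe _ hyL
  have hyeig : sA s g y = lc • y := eig_comm hcomm hCc.eig
  have hψy : ψa y = 0 :=
    (hA5 y Submodule.mem_top hyne lc (by linarith) hyeig).2 hca
  have hcompl : ({0}ᶜ : Finset (Fin (k + 1))) = Finset.univ.erase 0 := Finset.compl_singleton 0
  have hout : (∑ m ∈ Finset.univ.erase (0 : Fin (k + 1)), w m) + y ∉ C := by
    intro hin
    obtain ⟨M, hM, hM1⟩ := hP.absorb hin (w 0)
    have h1 := hA.nn _ Submodule.mem_top (subset_closure hM1)
    have h2 : ψa (∑ m ∈ Finset.univ.erase (0 : Fin (k + 1)), w m) = 0 := by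
      rw [map_sum]
      exact Finset.sum_eq_zero fun m hm => hψj m (Finset.ne_of_mem_erase hm)
    rw [map_sub, map_smul, map_add, h2, hψy, hA.one, add_zero, smul_zero, zero_sub] at h1
    linarith
  obtain ⟨M, hM, hM1⟩ := Pool.Agent.PFJ.H10.fmx n C Γ h.toCC (k + 1) h.three h.maxc w 0 y hw hyL hout
  have hyB : y ∈ B := by
    have h1 : M • f - y ∈ closure C := by
      rw [hf]; unfold fS; rw [hcompl]; exact hM1
    refine fce hP hwcl h1 ?_
    exact hP.cl_add (hP.cl_smul hfcl hM.le) hycl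
  exact ⟨_, hC2 y hyB hyeig⟩

end Pool.Agent.VMX.H6
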